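import Pool.Agent.Y53.FA.Fac1

set_option autoImplicit false

namespace Pool.Agent.Y53.FA

open Filter Topology

variable [Par]

/-- diagonal multiplier on `F` -/
noncomputable def mulL (c : Ix → ℝ) : F →ₗ[ℝ] F where
  toFun := fun x => (Finsupp.onFinset (sup x) (fun α => c α * co x α) (fun α h => by
    rw [mem_sup]; intro h0; rw [h0, mul_zero] at h; exact h rfl) : Ix →₀ ℝ)
  map_add' := fun x y => by
    apply F_ext; intro α
    show c α * co (x + y) α = c α * co x α + c α * co y α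
    rw [co_add, mul_add]
  map_smul' := fun r x => by
    apply F_ext; intro α
    show c α * co (r • x) α = r * (c α * co x α)
    rw [co_smul]; ring

@[simp] lemma co_mulL (c : Ix → ℝ) (x : F) (α : Ix) : co (mulL c x) α = c α * co x α := rfl

lemma mulL_bound {c : Ix → ℝ} {M : ℝ} (hM : 0 ≤ M) (hc : ∀ α, |c α| ≤ M) (x : F) :
    ‖mulL c x‖ ≤ M * ‖x‖ := by
  apply norm_le_of_tests
  intro t
  have h1 : tvt t (co (mulL c x)) ≤ tvt t (co (M • x)) := by
    apply tv_mono
    intro i _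
    rw [co_mulL, co_smul, abs_mul, abs_mul, abs_of_nonneg hM]
    have := hc (t.1.1, t.1.2.1, i)
    gcongr
  rw [tvt_smul, abs_of_nonneg hM] at h1
  have h2 := tvt_le_NN t x
  refine h1.trans ?_
  rw [norm_def]
  gcongr

/-- diagonal multiplier on `X` -/
noncomputable def Dm (c : Ix → ℝ) : X →L[ℝ] X := ext (em ∘ₗ mulL c)

section Dm
variable {c : Ix → ℝ} {M : ℝ}

lemma Dm_bound' (hM : 0 ≤ M) (hc : ∀ α, |c α| ≤ M) (x : F) : ‖(em ∘ₗ mulL c) x‖ ≤ M * ‖x‖ := by
  rw [LinearMap.comp_apply, em_norm]; exact mulL_bound hM hc x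

lemma Dm_em (hM : 0 ≤ M) (hc : ∀ α, |c α| ≤ M) (x : F) : Dm c (em x) = em (mulL c x) :=
  ext_em (Dm_bound' hM hc) x

lemma Dm_norm (hM : 0 ≤ M) (hc : ∀ α, |c α| ≤ M) : ‖Dm c‖ ≤ M := ext_norm hM (Dm_bound' hM hc)

/-- induction on `X`: continuous maps agreeing on the unit vectors agree -/
lemma clm_ext {G : Type} [NormedAddCommGroup G] [NormedSpace ℝ G] {A B : X →L[ℝ] G}
    (h : ∀ α, A (g α) = B (g α)) : A = B := by
  apply ContinuousLinearMap.ext
  intro x
  have hd : Set.EqOn (A : X → G) B (Set.range em) := by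
    rintro _ ⟨y, rfl⟩
    rw [em_expand, map_sum, map_sum]
    apply Finset.sum_congr rfl
    intro α _
    rw [map_smul, map_smul, h α]
  exact congrFun (Continuous.ext_on em_dense A.continuous B.continuous hd) x

lemma Dm_g (hM : 0 ≤ M) (hc : ∀ α, |c α| ≤ M) (α : Ix) : Dm c (g α) = c α • g α := by
  rw [g, Dm_em hM hc, ← map_smul]
  congr 1
  apply F_ext
  intro β
  rw [co_mulL, co_smul, co_sg]
  split_ifs with h
  · rw [h]
  · simp

lemma gs_Dm (hM : 0 ≤ M) (hc : ∀ α, |c α| ≤ M) (α : Ix) (x : X) :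
    gs α (Dm c x) = c α * gs α x := by
  have : (gs α).comp (Dm c) = (c α) • gs α := by
    apply clm_ext
    intro β
    rw [ContinuousLinearMap.comp_apply, Dm_g hM hc, map_smul, ContinuousLinearMap.smul_apply, gs_g]
    split_ifs with h
    · rw [h]
    · simp
  exact DFunLike.congr_fun this x

end Dm

open Classical in
/-- coordinate projections -/
noncomputable def PE (E : Set Ix) : X →L[ℝ] X := Dm (fun α => if α ∈ E then 1 else 0)

section PE
variable (E : Set Ix)

open Classical in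
lemma PE_c (α : Ix) : |(fun α => if α ∈ E then (1 : ℝ) else 0) α| ≤ 1 := by
  simp only; split_ifs <;> simp

lemma PE_norm : ‖PE E‖ ≤ 1 := Dm_norm zero_le_one (PE_c E)

lemma PE_le (x : X) : ‖PE E x‖ ≤ ‖x‖ := by
  have := (PE E).le_of_opNorm_le (PE_norm E) x
  simpa using this

open Classical in
lemma gs_PE (α : Ix) (x : X) : gs α (PE E x) = (if α ∈ E then 1 else 0) * gs α x :=
  gs_Dm zero_le_one (PE_c E) α x

open Classical in
lemma PE_g (α : Ix) : PE E (g α) = (if α ∈ E then (1 : ℝ) else 0) • g α :=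
  Dm_g zero_le_one (PE_c E) α

lemma PE_em_of_sup {x : F} (h : ↑(sup x) ⊆ E) : PE E (em x) = em x := by
  rw [em_expand, map_sum]
  apply Finset.sum_congr rfl
  intro α hα
  rw [map_smul, PE_g, if_pos (h hα), one_smul]

lemma PE_approx (x : X) {ε : ℝ} (hε : 0 < ε) :
    ∃ E₀ : Finset Ix, ∀ E : Set Ix, ↑E₀ ⊆ E → ‖x - PE E x‖ < ε := by
  obtain ⟨y, hy⟩ := em_dense.exists_dist_lt x (half_pos hε)
  refine ⟨sup y, fun E hE => ?_⟩
  have h1 : x - PE E x = (x - em y) - PE E (x - em y) := by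
    rw [map_sub, PE_em_of_sup E hE]; abel
  rw [h1]
  rw [dist_eq_norm] at hy
  have h2 := PE_le E (x - em y)
  calc ‖x - em y - PE E (x - em y)‖ ≤ ‖x - em y‖ + ‖PE E (x - em y)‖ := norm_sub_le _ _
    _ < ε := by linarith

lemma gs_small (x : X) {ε : ℝ} (hε : 0 < ε) : ∃ E₀ : Finset Ix, ∀ α ∉ E₀, |gs α x| < ε := by
  obtain ⟨E₀, h⟩ := PE_approx x hε
  refine ⟨E₀, fun α hα => ?_⟩
  have h1 := h ↑E₀ le_rfl
  have h2 := abs_gs_le α (x - PE ↑E₀ x)
  rw [map_sub, gs_PE, if_neg (by simpa using hα), zero_mul, sub_zero] at h2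
  exact h2.trans_lt h1

lemma gs_tendsto (x : X) (k : ℕ) (b : Bool) :
    Tendsto (fun i => gs (k, b, i) x) atTop (𝓝 0) := by
  rw [Metric.tendsto_atTop]
  intro ε hε
  obtain ⟨E₀, h⟩ := gs_small x hε
  obtain ⟨N, hN⟩ : ∃ N, ∀ i, (k, b, i) ∈ E₀ → i < N := by
    refine ⟨(E₀.sup fun α => α.2.2) + 1, fun i hi => ?_⟩
    have := Finset.le_sup (f := fun α : Ix => α.2.2) hi
    simp only at this
    omega
  refine ⟨N, fun i hi => ?_⟩
  rw [Real.dist_eq, sub_zero]
  apply h
  intro hmem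
  have := hN i hmem
  omega

/-- finite coordinate projections in coordinates -/
lemma PE_finset (E : Finset Ix) (x : X) : PE ↑E x = ∑ α ∈ E, gs α x • g α := by
  have : PE ↑E = ∑ α ∈ E, (gs α).smulRight (g α) := by
    apply clm_ext
    intro β
    rw [PE_g, ContinuousLinearMap.sum_apply]
    simp only [ContinuousLinearMap.smulRight_apply, gs_g, ite_smul, one_smul, zero_smul,
      Finset.mem_coe, Finset.sum_ite_eq]
  rw [this, ContinuousLinearMap.sum_apply]
  rfl

/-- a vector is bounded by the sum of its coordinates -/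
lemma norm_le_of_coords {x : X} {M : ℝ} (h : ∀ E : Finset Ix, ∑ α ∈ E, |gs α x| ≤ M) : ‖x‖ ≤ M := by
  apply le_of_forall_pos_le_add
  intro ε hε
  obtain ⟨E₀, h0⟩ := PE_approx x hε
  have h1 := h0 ↑E₀ le_rfl
  have h2 : ‖PE ↑E₀ x‖ ≤ M := by
    rw [PE_finset]
    refine (norm_sum_le _ _).trans ((Finset.sum_le_sum fun α _ => ?_).trans (h E₀))
    rw [norm_smul, norm_g, mul_one, Real.norm_eq_abs]
  calc ‖x‖ = ‖(x - PE ↑E₀ x) + PE ↑E₀ x‖ := by congr 1; abel
    _ ≤ ‖x - PE ↑E₀ x‖ + ‖PE ↑E₀ x‖ := norm_add_le _ _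
    _ ≤ M + ε := by linarith

end PE

/-- the unit vectors of one part are weakly null -/
lemma dual_tendsto (φ : X →L[ℝ] ℝ) (k : ℕ) (b : Bool) :
    Tendsto (fun i => φ (g (k, b, i))) atTop (𝓝 0) := by
  -- bounded sums of unit vectors
  have hb : ∀ (A : Finset ℕ) (c : ℕ → ℝ), (∀ i, |c i| ≤ 1) →
      ‖∑ i ∈ A, c i • g (k, b, i)‖ ≤ mt k b := by
    intro A c hc
    have e : ∑ i ∈ A, c i • g (k, b, i) = em (∑ i ∈ A, c i • sg (k, b, i)) := by
      rw [map_sum]; simp only [map_smul, g]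
    rw [e, em_norm]
    apply norm_le_of_tests
    rintro ⟨⟨k', b', B⟩, hB⟩
    show tv k' b' B _ ≤ _
    by_cases hkb : k' = k ∧ b' = b
    · obtain ⟨rfl, rfl⟩ := hkb
      have := tv_le_card (k := k') (b := b') (A := B)
        (x := co (∑ i ∈ A, c i • sg (k', b', i))) (M := 1) zero_le_one ?_ (mt k' b')
        (mt_pos k' b') hB
      · simpa using this
      · intro i _
        rw [co_sum]
        simp only [co_smul, co_sg, Prod.mk.injEq, true_and, mul_ite, mul_one, mul_zero]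
        rw [Finset.sum_ite_eq']
        split_ifs
        · exact hc i
        · simp
    · have : tv k' b' B (co (∑ i ∈ A, c i • sg (k, b, i))) ≤ tv k' b' B (co 0) := by
        apply tv_mono
        intro i _
        rw [co_sum]
        have : ∑ j ∈ A, co (c j • sg (k, b, j)) (k', b', i) = 0 := by
          apply Finset.sum_eq_zero
          intro j _
          rw [co_smul, co_sg, if_neg, mul_zero]
          intro h
          rw [Prod.mk.injEq, Prod.mk.injEq] at h
          exact hkb ⟨h.1.symm, h.2.1.symm⟩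
        rw [this]; simp
      refine this.trans ?_
      have h0 : tv k' b' B (co 0) ≤ mt k b := by
        have := tvt_zero ⟨(k', b', B), hB⟩
        have h1 : tv k' b' B (co 0) = 0 := this
        rw [h1]; positivity
      exact h0
  -- summability
  have hs : ∀ A : Finset ℕ, ∑ i ∈ A, |φ (g (k, b, i))| ≤ ‖φ‖ * mt k b := by
    intro A
    have h1 := hb A (fun i => SignType.sign (φ (g (k, b, i)))) (fun i => by
      rcases lt_trichotomy (φ (g (k, b, i))) 0 with h | h | h <;> simp [h])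
    have h2 : φ (∑ i ∈ A, ((SignType.sign (φ (g (k, b, i))) : ℝ)) • g (k, b, i)) =
        ∑ i ∈ A, |φ (g (k, b, i))| := by
      rw [map_sum]
      apply Finset.sum_congr rfl
      intro i _
      rw [map_smul, smul_eq_mul, sign_mul_self]
    rw [← h2]
    refine (le_abs_self _).trans ?_
    have h3 := φ.le_opNorm (∑ i ∈ A, ((SignType.sign (φ (g (k, b, i))) : ℝ)) • g (k, b, i))
    rw [Real.norm_eq_abs] at h3
    refine h3.trans ?_
    gcongr
  have hsum : Summable fun i => |φ (g (k, b, i))| :=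
    summable_of_sum_le (fun i => abs_nonneg _) hs
  have := hsum.tendsto_atTop_zero
  exact (tendsto_zero_iff_abs_tendsto_zero _).2 this

end Pool.Agent.Y53.FA
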