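import Pool.Agent.Y53.FA.Fac2

set_option autoImplicit false

namespace Pool.Agent.Y53.FA

open Filter Topology

variable [Par]

/-- index maps -/
def idx (β : ℕ → Bool → Bool) (ν : Ix → ℕ) (α : Ix) : Ix := (α.1, β α.1 α.2.1, ν α)

lemma idx_inj {β : ℕ → Bool → Bool} {ν : Ix → ℕ} (hν : Function.Injective ν) :
    Function.Injective (idx β ν) := by
  intro α α' h
  apply hν
  have := congrArg (fun γ : Ix => γ.2.2) h
  exact this

section maps
variable (β : ℕ → Bool → Bool) (ν : Ix → ℕ) (hν : Function.Injective ν)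

/-- restriction along an index map -/
noncomputable def SF : F →ₗ[ℝ] F :=
  (Finsupp.lcomapDomain (idx β ν) (idx_inj hν) : (Ix →₀ ℝ) →ₗ[ℝ] (Ix →₀ ℝ))

/-- transport along an index map -/
noncomputable def RF : F →ₗ[ℝ] F :=
  (Finsupp.lmapDomain ℝ ℝ (idx β ν) : (Ix →₀ ℝ) →ₗ[ℝ] (Ix →₀ ℝ))

lemma co_SF (x : F) (α : Ix) : co (SF β ν hν x) α = co x (idx β ν α) := rfl

include hν in
lemma co_RF (x : F) (α : Ix) : co (RF β ν x) (idx β ν α) = co x α :=
  Finsupp.mapDomain_apply (idx_inj hν) (show Ix →₀ ℝ from x) α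

lemma co_RF_notin (x : F) (γ : Ix) (h : γ ∉ Set.range (idx β ν)) : co (RF β ν x) γ = 0 :=
  Finsupp.mapDomain_notin_range (show Ix →₀ ℝ from x) γ h

lemma RF_sg (α : Ix) : RF β ν (sg α) = sg (idx β ν α) := Finsupp.mapDomain_single

/-- the constant -/
def Kc (k0 : ℕ) : ℕ := (∑ k ∈ Finset.range k0, (mt k false + mt k true)) + 1

lemma one_le_Kc (k0 : ℕ) : (1 : ℝ) ≤ Kc k0 := by
  unfold Kc; push_cast
  have : (0 : ℝ) ≤ ∑ k ∈ Finset.range k0, ((mt k false : ℝ) + (mt k true : ℝ)) :=
    Finset.sum_nonneg fun _ _ => by positivity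
  linarith

lemma mt_le_Kc {k0 k : ℕ} (hk : k < k0) (b : Bool) : (mt k b : ℝ) ≤ Kc k0 := by
  have h1 : mt k false + mt k true ≤ ∑ k ∈ Finset.range k0, (mt k false + mt k true) :=
    Finset.single_le_sum (f := fun k => mt k false + mt k true) (fun _ _ => Nat.zero_le _)
      (Finset.mem_range.2 hk)
  have h2 : mt k b ≤ Kc k0 := by
    unfold Kc
    cases b <;> omega
  exact_mod_cast h2

variable {β ν} {k0 : ℕ}

lemma SF_bound (hβ : ∀ k, k0 ≤ k → ∀ b, β k b = b) (x : F) :
    ‖SF β ν hν x‖ ≤ Kc k0 * ‖x‖ := by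
  have hK := one_le_Kc k0
  have hx := NN_nonneg x
  apply norm_le_of_tests
  rintro ⟨⟨k, b, A⟩, hA⟩
  show tv k b A _ ≤ _
  rw [norm_def]
  by_cases hk : k0 ≤ k
  · have e : tv k b A (co (SF β ν hν x)) = tv k b (A.image fun i => ν (k, b, i)) (co x) := by
      unfold tv
      congr 1
      rw [Finset.sum_image]
      · apply Finset.sum_congr rfl
        intro i _
        rw [co_SF]
        simp only [idx, hβ k hk b]
      · intro i _ j _ hij
        have := hν hij
        simpa using this
    rw [e]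
    have hc : (A.image fun i => ν (k, b, i)).card ≤ mt k b := Finset.card_image_le.trans hA
    have := tvt_le_NN ⟨(k, b, A.image fun i => ν (k, b, i)), hc⟩ x
    refine (show tv k b _ (co x) ≤ NN x from this).trans ?_
    nlinarith
  · push Not at hk
    have h1 := tv_le_card (k := k) (b := b) (A := A) (x := co (SF β ν hν x)) hx
      (fun i _ => by rw [co_SF]; exact abs_co_le x _) (mt k b) (mt_pos k b) hA
    refine h1.trans ?_
    have := mt_le_Kc hk b
    gcongr

include hν in
lemma RF_bound (hβ : ∀ k, k0 ≤ k → ∀ b, β k b = b) (x : F) :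
    ‖RF β ν x‖ ≤ Kc k0 * ‖x‖ := by
  have hK := one_le_Kc k0
  have hx := NN_nonneg x
  apply norm_le_of_tests
  rintro ⟨⟨k, b, A⟩, hA⟩
  show tv k b A _ ≤ _
  rw [norm_def]
  by_cases hk : k0 ≤ k
  · have hinj : Function.Injective fun i => ν (k, b, i) := by
      intro i j hij
      have := hν hij
      simpa using this
    have e : tv k b A (co (RF β ν x)) =
        tv k b (A.preimage (fun i => ν (k, b, i)) hinj.injOn) (co x) := by
      unfold tv
      congr 1
      have := Finset.sum_preimage (fun i => ν (k, b, i)) A hinj.injOn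
        (fun j => |co (RF β ν x) (k, b, j)| ^ q k) (fun j _ hj => by
          have hz : co (RF β ν x) (k, b, j) = 0 := by
            apply co_RF_notin
            rintro ⟨⟨k', b', i'⟩, h⟩
            simp only [idx, Prod.mk.injEq] at h
            obtain ⟨rfl, h2, h3⟩ := h
            rw [hβ k' hk b'] at h2
            subst h2
            exact hj ⟨i', h3⟩
          rw [hz, abs_zero, Real.zero_rpow (q_pos k).ne'])
      rw [← this]
      apply Finset.sum_congr rfl
      intro i _
      have h2 : idx β ν (k, b, i) = (k, b, ν (k, b, i)) := by simp only [idx, hβ k hk b]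
      rw [← h2, co_RF β ν hν]
    rw [e]
    have hc : (A.preimage (fun i => ν (k, b, i)) hinj.injOn).card ≤ mt k b := by
      refine le_trans ?_ hA
      rw [← Finset.card_image_of_injective _ hinj]
      apply Finset.card_le_card
      intro j hj
      rw [Finset.mem_image] at hj
      obtain ⟨i, hi, rfl⟩ := hj
      exact (Finset.mem_preimage (hf := hinj.injOn)).1 hi
    have := tvt_le_NN ⟨(k, b, A.preimage (fun i => ν (k, b, i)) hinj.injOn), hc⟩ x
    refine (show tv k b _ (co x) ≤ NN x from this).trans ?_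
    nlinarith
  · push Not at hk
    have h1 := tv_le_card (k := k) (b := b) (A := A) (x := co (RF β ν x)) hx
      (fun i _ => by
        by_cases h : (k, b, i) ∈ Set.range (idx β ν)
        · obtain ⟨α, hα⟩ := h
          rw [← hα, co_RF β ν hν]; exact abs_co_le x _
        · rw [co_RF_notin β ν x _ h, abs_zero]; exact hx) (mt k b) (mt_pos k b) hA
    refine h1.trans ?_
    have := mt_le_Kc hk b
    gcongr

variable (β) in
/-- restriction on `X` -/
noncomputable def SX : X →L[ℝ] X := ext (em ∘ₗ SF β ν hν)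

variable (β ν) in
/-- transport on `X` -/
noncomputable def RX : X →L[ℝ] X := ext (em ∘ₗ RF β ν)

lemma SX_em (hβ : ∀ k, k0 ≤ k → ∀ b, β k b = b) (x : F) :
    SX β hν (em x) = em (SF β ν hν x) :=
  ext_em (C := Kc k0) (fun x => by
    rw [LinearMap.comp_apply, em_norm]; exact SF_bound hν hβ x) x

include hν in
lemma RX_g (hβ : ∀ k, k0 ≤ k → ∀ b, β k b = b) (α : Ix) : RX β ν (g α) = g (idx β ν α) := by
  have := ext_em (A := em ∘ₗ RF β ν) (C := Kc k0) (fun x => by
    rw [LinearMap.comp_apply, em_norm]; exact RF_bound hν hβ x) (sg α)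
  rw [RX, g, this, LinearMap.comp_apply, RF_sg, g]

lemma gs_SX (hβ : ∀ k, k0 ≤ k → ∀ b, β k b = b) (α : Ix) (y : X) :
    gs α (SX β hν y) = gs (idx β ν α) y := by
  have hd : Set.EqOn (fun y => gs α (SX β hν y)) (fun y => gs (idx β ν α) y) (Set.range em) := by
    rintro _ ⟨x, rfl⟩
    simp only
    rw [SX_em hν hβ, gs_em, gs_em, co_SF]
  exact congrFun (Continuous.ext_on em_dense (by fun_prop) (by fun_prop) hd) y

end maps

/-- a sequence chosen recursively -/
lemma choose_seq (P : ℕ → ℕ → Prop) (Rl : ℕ → ℕ → ℕ → ℕ → Prop)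
    (h : ∀ j, ∀ g : ℕ → ℕ, ∃ n, P j n ∧ ∀ l < j, Rl l (g l) j n) :
    ∃ f : ℕ → ℕ, (∀ j, P j (f j)) ∧ ∀ l j, l < j → Rl l (f l) j (f j) := by
  choose G hG1 hG2 using h
  let W : (j : ℕ) → ((l : ℕ) → l < j → ℕ) → ℕ :=
    fun j ih => G j (fun l => if h : l < j then ih l h else 0)
  let f : ℕ → ℕ := WellFounded.fix Nat.lt_wfRel.wf W
  have hf : ∀ j, f j = G j (fun l => if l < j then f l else 0) := by
    intro j
    have := WellFounded.fix_eq Nat.lt_wfRel.wf W j
    rw [show f j = _ from this]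
    simp only [W, dite_eq_ite]
    rfl
  refine ⟨f, fun j => ?_, fun l j hl => ?_⟩
  · rw [hf]; exact hG1 _ _
  · have := hG2 j (fun l => if l < j then f l else 0) l hl
    rw [← hf] at this
    simpa only [hl, if_true] using this

end Pool.Agent.Y53.FA
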