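import Pool.Agent.Y53.FA.Fac3

set_option autoImplicit false

namespace Pool.Agent.Y53.FA

open Filter Topology

variable [Par]

/-- weights -/
noncomputable def ww (α : Ix) : ℝ := (1 / 2) ^ (Encodable.encode α + 1)

lemma ww_pos (α : Ix) : 0 < ww α := by unfold ww; positivity

lemma sum_ww_le (E : Finset Ix) : ∑ α ∈ E, ww α ≤ 1 := by
  have h1 : ∑ α ∈ E, ww α = ∑ j ∈ E.image Encodable.encode, (1 / 2 : ℝ) ^ (j + 1) := by
    rw [Finset.sum_image]
    · rfl
    · intro a _ b _ h; exact Encodable.encode_injective h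
  rw [h1]
  have hs : Summable fun j : ℕ => (1 / 2 : ℝ) ^ (j + 1) := by
    simp only [pow_succ]
    exact summable_geometric_two.mul_right _
  refine (hs.sum_le_tsum _ (fun _ _ => by positivity)).trans ?_
  simp only [pow_succ]
  rw [tsum_mul_right, tsum_geometric_two]
  norm_num

lemma opNorm_le_of_em {G : Type} [NormedAddCommGroup G] [NormedSpace ℝ G] {A : X →L[ℝ] G} {C : ℝ}
    (hC : 0 ≤ C) (h : ∀ x : F, ‖A (em x)‖ ≤ C * ‖x‖) : ‖A‖ ≤ C := by
  refine ContinuousLinearMap.opNorm_le_bound _ hC fun x => ?_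
  refine em_dense.induction_on (p := fun x => ‖A x‖ ≤ C * ‖x‖) x ?_ ?_
  · exact isClosed_le (by fun_prop) (by fun_prop)
  · intro y; rw [em_norm]; exact h y

/-- an operator with small matrix is small -/
lemma small_matrix {A : X →L[ℝ] X} {ε : ℝ} (hε : 0 ≤ ε)
    (h : ∀ α β, |gs α (A (g β))| ≤ ε * (ww α * ww β)) : ‖A‖ ≤ ε := by
  apply opNorm_le_of_em hε
  intro y
  have hy := norm_nonneg y
  apply norm_le_of_coords
  intro E
  have h1 : ∀ α, |gs α (A (em y))| ≤ ε * ‖y‖ * ww α := by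
    intro α
    rw [em_expand, map_sum, map_sum]
    refine (Finset.abs_sum_le_sum_abs _ _).trans ?_
    have hα := ww_pos α
    calc ∑ β ∈ sup y, |gs α (A (co y β • g β))| ≤ ∑ β ∈ sup y, (ε * ‖y‖ * ww α) * ww β := by
          apply Finset.sum_le_sum
          intro β _
          rw [map_smul, map_smul, smul_eq_mul, abs_mul]
          have h2 := h α β
          have h3 : |co y β| ≤ ‖y‖ := abs_co_le y β
          calc |co y β| * |gs α (A (g β))| ≤ ‖y‖ * (ε * (ww α * ww β)) := by gcongr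
            _ = (ε * ‖y‖ * ww α) * ww β := by ring
      _ = (ε * ‖y‖ * ww α) * ∑ β ∈ sup y, ww β := by rw [Finset.mul_sum]
      _ ≤ (ε * ‖y‖ * ww α) * 1 := by
          have := sum_ww_le (sup y)
          gcongr
      _ = ε * ‖y‖ * ww α := mul_one _
  calc ∑ α ∈ E, |gs α (A (em y))| ≤ ∑ α ∈ E, (ε * ‖y‖) * ww α := Finset.sum_le_sum fun α _ => h1 α
    _ = (ε * ‖y‖) * ∑ α ∈ E, ww α := by rw [Finset.mul_sum]
    _ ≤ (ε * ‖y‖) * 1 := by
        have := sum_ww_le E
        gcongr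
    _ = ε * ‖y‖ := mul_one _

/-- the choice of positions -/
lemma choose_nu (T : X →L[ℝ] X) {δ η : ℝ} (hη : 0 < η) {β1 β2 : ℕ → Bool → Bool}
    (hf : ∀ k b, ∃ᶠ i in atTop, δ ≤ |gs (k, β1 k b, i) (T (g (k, β2 k b, i)))|) :
    ∃ ν : Ix → ℕ, Function.Injective ν ∧
      (∀ α, δ ≤ |gs (idx β1 ν α) (T (g (idx β2 ν α)))|) ∧
      ∀ α γ, α ≠ γ → |gs (idx β1 ν α) (T (g (idx β2 ν γ)))| ≤ η * (ww α * ww γ) := by
  let P : ℕ → ℕ → Prop := fun j n => ∀ α : Ix, Encodable.encode α = j →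
    δ ≤ |gs (α.1, β1 α.1 α.2.1, n) (T (g (α.1, β2 α.1 α.2.1, n)))|
  let Rl : ℕ → ℕ → ℕ → ℕ → Prop := fun l m j n => ∀ α γ : Ix, Encodable.encode α = l →
    Encodable.encode γ = j → n ≠ m ∧
    |gs (α.1, β1 α.1 α.2.1, m) (T (g (γ.1, β2 γ.1 γ.2.1, n)))| ≤ η * (ww α * ww γ) ∧
    |gs (γ.1, β1 γ.1 γ.2.1, n) (T (g (α.1, β2 α.1 α.2.1, m)))| ≤ η * (ww α * ww γ)
  have key : ∀ j, ∀ f : ℕ → ℕ, ∃ n, P j n ∧ ∀ l < j, Rl l (f l) j n := by
    intro j f
    by_cases hj : ∃ γ : Ix, Encodable.encode γ = j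
    · obtain ⟨γ, hγ⟩ := hj
      have hev : ∀ l ∈ Finset.range j, ∀ᶠ n in atTop, Rl l (f l) j n := by
        intro l _
        by_cases hl : ∃ α : Ix, Encodable.encode α = l
        · obtain ⟨α, hα⟩ := hl
          have hpos : 0 < η * (ww α * ww γ) := by
            have := ww_pos α; have := ww_pos γ; positivity
          have e1 : ∀ᶠ n in atTop, n ≠ f l := eventually_ne_atTop _
          have e2 : ∀ᶠ n in atTop,
              |gs (α.1, β1 α.1 α.2.1, f l) (T (g (γ.1, β2 γ.1 γ.2.1, n)))| ≤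
                η * (ww α * ww γ) := by
            have := dual_tendsto ((gs (α.1, β1 α.1 α.2.1, f l)).comp T) γ.1 (β2 γ.1 γ.2.1)
            have h2 := (tendsto_zero_iff_abs_tendsto_zero _).1 this
            exact (h2.eventually (gt_mem_nhds hpos)).mono fun n hn => le_of_lt hn
          have e3 : ∀ᶠ n in atTop,
              |gs (γ.1, β1 γ.1 γ.2.1, n) (T (g (α.1, β2 α.1 α.2.1, f l)))| ≤
                η * (ww α * ww γ) := by
            have := gs_tendsto (T (g (α.1, β2 α.1 α.2.1, f l))) γ.1 (β1 γ.1 γ.2.1)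
            have h2 := (tendsto_zero_iff_abs_tendsto_zero _).1 this
            exact (h2.eventually (gt_mem_nhds hpos)).mono fun n hn => le_of_lt hn
          filter_upwards [e1, e2, e3] with n h1 h2 h3
          intro α' γ' hα' hγ'
          have ea : α' = α := Encodable.encode_injective (hα'.trans hα.symm)
          have eg : γ' = γ := Encodable.encode_injective (hγ'.trans hγ.symm)
          subst ea; subst eg
          exact ⟨h1, h2, h3⟩
        · refine Eventually.of_forall fun n => ?_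
          intro α' γ' hα' _
          exact absurd ⟨α', hα'⟩ hl
      have hall := (Filter.eventually_all_finset (Finset.range j)).2 hev
      obtain ⟨n, hn1, hn2⟩ := ((hf γ.1 γ.2.1).and_eventually hall).exists
      refine ⟨n, ?_, fun l hl => hn2 l (Finset.mem_range.2 hl)⟩
      intro γ' hγ'
      have eg : γ' = γ := Encodable.encode_injective (hγ'.trans hγ.symm)
      subst eg
      exact hn1
    · refine ⟨0, ?_, ?_⟩
      · intro γ hγ; exact absurd ⟨γ, hγ⟩ hj
      · intro l _ α γ _ hγ; exact absurd ⟨γ, hγ⟩ hj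
  obtain ⟨f, hf1, hf2⟩ := choose_seq P Rl key
  refine ⟨fun α => f (Encodable.encode α), ?_, ?_, ?_⟩
  · intro α γ h
    by_contra hne
    have hne' : Encodable.encode α ≠ Encodable.encode γ := fun h' =>
      hne (Encodable.encode_injective h')
    rcases lt_or_gt_of_ne hne' with h' | h'
    · exact (hf2 _ _ h' α γ rfl rfl).1 h.symm
    · exact (hf2 _ _ h' γ α rfl rfl).1 h
  · intro α
    exact hf1 _ α rfl
  · intro α γ hne
    have hne' : Encodable.encode α ≠ Encodable.encode γ := fun h' =>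
      hne (Encodable.encode_injective h')
    rcases lt_or_gt_of_ne hne' with h' | h'
    · exact (hf2 _ _ h' α γ rfl rfl).2.1
    · have := (hf2 _ _ h' γ α rfl rfl).2.2
      rw [mul_comm (ww γ)] at this
      exact this

/-- a Neumann series -/
lemma neumann {Y : Type*} [NormedAddCommGroup Y] [NormedSpace ℝ Y] [CompleteSpace Y]
    {Di D B : Y →L[ℝ] Y} {t : ℝ} (ht : t < 1) (h1 : Di.comp D = ContinuousLinearMap.id ℝ Y)
    (h2 : ‖Di‖ * ‖B - D‖ ≤ t) :
    ∃ V : Y →L[ℝ] Y, V.comp (Di.comp B) = ContinuousLinearMap.id ℝ Y ∧ ‖V‖ ≤ 1 / (1 - t) := by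
  have hlt : ‖-(Di * (B - D))‖ < 1 := by
    rw [norm_neg]
    exact (norm_mul_le _ _).trans_lt (h2.trans_lt ht)
  have hV : (Units.oneSub (-(Di * (B - D))) hlt : Y →L[ℝ] Y) = Di * B := by
    have e1 : Di * D = 1 := h1
    rw [Units.val_oneSub, sub_neg_eq_add, ← e1, ← mul_add]
    congr 1
    abel
  set V : Y →L[ℝ] Y := (↑(Units.oneSub (-(Di * (B - D))) hlt)⁻¹ : Y →L[ℝ] Y) with hVd
  have hVB : V * (Di * B) = 1 := by
    rw [← hV, hVd, Units.inv_mul]
  refine ⟨V, hVB, ?_⟩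
  have e1 : Di * D = 1 := h1
  have e2 : V = 1 - V * (Di * (B - D)) := by
    rw [mul_sub, mul_sub, hVB, e1, mul_one]
    abel
  have h3 : ‖V‖ ≤ 1 + ‖V‖ * t := by
    calc ‖V‖ = ‖1 - V * (Di * (B - D))‖ := congrArg norm e2
      _ ≤ ‖(1 : Y →L[ℝ] Y)‖ + ‖V * (Di * (B - D))‖ := norm_sub_le _ _
      _ ≤ 1 + ‖V‖ * (‖Di‖ * ‖B - D‖) := by
          apply add_le_add
          · exact ContinuousLinearMap.norm_id_le
          · refine (norm_mul_le _ _).trans ?_
            exact mul_le_mul_of_nonneg_left (norm_mul_le _ _) (norm_nonneg _)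
      _ ≤ 1 + ‖V‖ * t := by
          have := mul_le_mul_of_nonneg_left h2 (norm_nonneg V)
          linarith
  rw [le_div_iff₀ (by linarith)]
  linarith

/-- operators with a large generalized diagonal are factors of the identity -/
lemma factor (T : X →L[ℝ] X) {δ t : ℝ} (hδ : 0 < δ) (ht0 : 0 < t) (ht1 : t < 1) {k0 : ℕ}
    {β1 β2 : ℕ → Bool → Bool}
    (h1 : ∀ k, k0 ≤ k → ∀ b, β1 k b = b) (h2 : ∀ k, k0 ≤ k → ∀ b, β2 k b = b)
    (hf : ∀ k b, ∃ᶠ i in atTop, δ ≤ |gs (k, β1 k b, i) (T (g (k, β2 k b, i)))|) :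
    ∃ S R : X →L[ℝ] X, S.comp (T.comp R) = ContinuousLinearMap.id ℝ X ∧
      ‖R‖ * ‖S‖ ≤ (Kc k0 : ℝ) ^ 2 * (1 / (1 - t) * δ⁻¹) := by
  obtain ⟨ν, hν, hd, ho⟩ := choose_nu T (δ := δ) (η := t * δ) (by positivity) hf
  set d : Ix → ℝ := fun α => gs (idx β1 ν α) (T (g (idx β2 ν α))) with hdd
  have hdT : ∀ α, |d α| ≤ ‖T‖ := by
    intro α
    refine (abs_gs_le _ _).trans ?_
    have := T.le_opNorm (g (idx β2 ν α))
    rwa [norm_g, mul_one] at this
  have hT0 := norm_nonneg T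
  have hdi : ∀ α, |(d α)⁻¹| ≤ δ⁻¹ := by
    intro α
    rw [abs_inv]
    exact inv_anti₀ hδ (hd α)
  have hδi : 0 ≤ δ⁻¹ := by positivity
  have hd0 : ∀ α, d α ≠ 0 := by
    intro α h0
    have := hd α
    change δ ≤ |d α| at this
    rw [h0, abs_zero] at this
    linarith
  have hEs : ‖(SX β1 hν).comp (T.comp (RX β2 ν)) - Dm d‖ ≤ t * δ := by
    apply small_matrix (by positivity)
    intro α γ
    rw [ContinuousLinearMap.sub_apply, map_sub, Dm_g hT0 hdT, map_smul, gs_g,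
      ContinuousLinearMap.comp_apply, ContinuousLinearMap.comp_apply, RX_g hν h2,
      gs_SX hν h1]
    by_cases hαγ : γ = α
    · subst hαγ
      rw [if_pos rfl, smul_eq_mul, mul_one, hdd]
      simp only [sub_self, abs_zero]
      have := ww_pos γ
      positivity
    · rw [if_neg hαγ, smul_zero, sub_zero]
      exact ho α γ (fun h => hαγ h.symm)
  have hDin : ‖Dm (fun α => (d α)⁻¹)‖ ≤ δ⁻¹ := Dm_norm hδi hdi
  have e1 : (Dm (fun α => (d α)⁻¹)).comp (Dm d) = ContinuousLinearMap.id ℝ X := by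
    apply clm_ext
    intro α
    rw [ContinuousLinearMap.comp_apply, Dm_g hT0 hdT, map_smul, Dm_g hδi hdi, smul_smul,
      mul_inv_cancel₀ (hd0 α), one_smul, ContinuousLinearMap.id_apply]
  have hlt : ‖Dm (fun α => (d α)⁻¹)‖ * ‖(SX β1 hν).comp (T.comp (RX β2 ν)) - Dm d‖ ≤ t := by
    calc _ ≤ δ⁻¹ * (t * δ) := by gcongr
      _ = t := by field_simp
  obtain ⟨V, hV, hVn⟩ := neumann ht1 e1 hlt
  have hK := one_le_Kc k0
  have hSX : ‖SX β1 hν‖ ≤ Kc k0 := ext_norm (by positivity) fun x => by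
    rw [LinearMap.comp_apply, em_norm]; exact SF_bound hν h1 x
  have hRX : ‖RX β2 ν‖ ≤ Kc k0 := ext_norm (by positivity) fun x => by
    rw [LinearMap.comp_apply, em_norm]; exact RF_bound hν h2 x
  refine ⟨(V.comp (Dm (fun α => (d α)⁻¹))).comp (SX β1 hν), RX β2 ν, ?_, ?_⟩
  · rw [ContinuousLinearMap.comp_assoc, ContinuousLinearMap.comp_assoc]
    exact hV
  · have hS : ‖(V.comp (Dm (fun α => (d α)⁻¹))).comp (SX β1 hν)‖ ≤
        (1 / (1 - t) * δ⁻¹) * Kc k0 := by
      refine (ContinuousLinearMap.opNorm_comp_le _ _).trans ?_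
      have h3 : ‖V.comp (Dm (fun α => (d α)⁻¹))‖ ≤ 1 / (1 - t) * δ⁻¹ := by
        refine (ContinuousLinearMap.opNorm_comp_le _ _).trans ?_
        exact mul_le_mul hVn hDin (norm_nonneg _) (by
          have : 0 < 1 - t := by linarith
          positivity)
      exact mul_le_mul h3 hSX (norm_nonneg _) (by
        have : 0 < 1 - t := by linarith
        positivity)
    calc ‖RX β2 ν‖ * ‖(V.comp (Dm (fun α => (d α)⁻¹))).comp (SX β1 hν)‖
        ≤ Kc k0 * ((1 / (1 - t) * δ⁻¹) * Kc k0) :=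
          mul_le_mul hRX hS (norm_nonneg _) (by positivity)
      _ = (Kc k0 : ℝ) ^ 2 * (1 / (1 - t) * δ⁻¹) := by ring

end Pool.Agent.Y53.FA
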