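import Pool.Agent.Y53.FA.Fac6

set_option autoImplicit false

namespace Pool.Agent.Y53.FA

open Filter Topology

variable [Par]

lemma norm_two (k i : ℕ) {a b : ℝ} (ha : |a| ≤ 1) (hb : |b| ≤ 1) (h : |a| = 1 ∨ |b| = 1) :
    ‖a • g (k, false, i) + b • g (k, true, i)‖ = 1 := by
  have e : a • g (k, false, i) + b • g (k, true, i) =
      em (a • sg (k, false, i) + b • sg (k, true, i)) := by
    rw [map_add, map_smul, map_smul]; rfl
  rw [e, em_norm]
  apply le_antisymm
  · apply norm_le_of_tests
    rintro ⟨⟨k', b', A⟩, hA⟩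
    have h1 : tvt ⟨(k', b', A), hA⟩ (co (a • sg (k, false, i) + b • sg (k, true, i))) ≤
        tvt ⟨(k', b', A), hA⟩ (co (sg (k', b', i))) := by
      apply tv_mono
      intro j _
      simp only [co_add, co_smul, co_sg, Prod.mk.injEq, true_and]
      by_cases hj : i = j
      · subst hj
        by_cases hk : k = k'
        · subst hk
          cases b' <;> simp [ha, hb]
        · simp [hk]
      · simp [hj]
    exact h1.trans (tvt_sg_le _ _)
  · rcases h with h | h
    · have := abs_co_le (a • sg (k, false, i) + b • sg (k, true, i)) (k, false, i)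
      simp only [co_add, co_smul, co_sg, Prod.mk.injEq, true_and, if_true, and_true,
        reduceCtorEq, if_false, mul_one, mul_zero, add_zero, false_and] at this
      rw [← h]; exact this
    · have := abs_co_le (a • sg (k, false, i) + b • sg (k, true, i)) (k, true, i)
      simp only [co_add, co_smul, co_sg, Prod.mk.injEq, true_and, if_true, and_true,
        reduceCtorEq, if_false, mul_one, mul_zero, zero_add, false_and] at this
      rw [← h]; exact this

lemma ub_norm (k i : ℕ) (b : Bool) : ‖ub k i b‖ = 1 := by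
  have t0 := th_pos k
  have t1 := th_le_one k
  cases b
  · have := norm_two k i (a := 1) (b := th k) (by simp) (by rw [abs_of_pos t0]; exact t1)
      (by simp)
    rw [one_smul] at this
    exact this
  · have := norm_two k i (a := -th k) (b := 1) (by rw [abs_neg, abs_of_pos t0]; exact t1)
      (by simp) (by simp)
    rw [one_smul] at this
    exact this

lemma uf_ub (k i k' i' : ℕ) (b b' : Bool) :
    uf k i b (ub k' i' b') = if k' = k ∧ i' = i ∧ b' = b then 1 else 0 := by
  have hp : (0 : ℝ) < 1 + th k ^ 2 := by positivity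
  by_cases h : k' = k ∧ i' = i
  · obtain ⟨rfl, rfl⟩ := h
    cases b <;> cases b' <;>
      simp only [uf_false, uf_true, ub, if_true, Bool.false_eq_true, if_false, map_add, map_smul,
        gs_g, smul_eq_mul, Prod.mk.injEq, true_and, reduceCtorEq, mul_zero, mul_one, add_zero,
        zero_add, and_true, false_and, and_false, and_self]
    · field_simp
    · ring
    · ring
    · field_simp
      ring
  · have h2 : ¬ (k' = k ∧ i' = i ∧ b' = b) := fun hh => h ⟨hh.1, hh.2.1⟩
    rw [if_neg h2]
    have h3 : ∀ c c' : Bool, gs (k, c, i) (g (k', c', i')) = 0 := by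
      intro c c'
      rw [gs_g, if_neg]
      intro hh
      simp only [Prod.mk.injEq] at hh
      exact h ⟨hh.1, hh.2.2⟩
    cases b <;> cases b' <;>
      simp only [uf_false, uf_true, ub, if_true, Bool.false_eq_true, if_false, map_add, map_smul,
        h3, smul_eq_mul, mul_zero, add_zero]

lemma uf_expand (k i : ℕ) (x : X) :
    uf k i false x • ub k i false + uf k i true x • ub k i true =
      gs (k, false, i) x • g (k, false, i) + gs (k, true, i) x • g (k, true, i) := by
  have hp : (1 + th k ^ 2) ≠ 0 := by positivity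
  rw [uf_false, uf_true]
  simp only [ub, if_true, Bool.false_eq_true, if_false]
  have h1 : (1 + th k ^ 2)⁻¹ * (gs (k, false, i) x + th k * gs (k, true, i) x) +
      (1 + th k ^ 2)⁻¹ * (-th k * gs (k, false, i) x + gs (k, true, i) x) * (-th k) =
        gs (k, false, i) x := by
    field_simp; ring
  have h2 : (1 + th k ^ 2)⁻¹ * (gs (k, false, i) x + th k * gs (k, true, i) x) * th k +
      (1 + th k ^ 2)⁻¹ * (-th k * gs (k, false, i) x + gs (k, true, i) x) =
        gs (k, true, i) x := by
    field_simp; ring
  conv_rhs => rw [← h1, ← h2]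
  module

/-- the basis -/
noncomputable def bv (n : ℕ) : X :=
  ub (Nat.unpair (n / 2)).1 (Nat.unpair (n / 2)).2 (decide (n % 2 = 1))

/-- the coordinate functionals -/
noncomputable def bf (n : ℕ) : X →L[ℝ] ℝ :=
  uf (Nat.unpair (n / 2)).1 (Nat.unpair (n / 2)).2 (decide (n % 2 = 1))

lemma hasSum_g (x : X) : HasSum (fun α => gs α x • g α) x := by
  rw [HasSum, SummationFilter.unconditional_filter, Metric.tendsto_atTop]
  intro ε hε
  obtain ⟨E₀, h⟩ := PE_approx x hε
  refine ⟨E₀, fun E hE => ?_⟩
  rw [← PE_finset, dist_comm, dist_eq_norm]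
  exact h ↑E (by exact_mod_cast hE)

/-- reindexing -/
def bE : ℕ × Bool ≃ Ix where
  toFun := fun p => ((Nat.unpair p.1).1, p.2, (Nat.unpair p.1).2)
  invFun := fun α => (Nat.pair α.1 α.2.2, α.2.1)
  left_inv := fun p => by simp
  right_inv := fun α => by simp

lemma even_tendsto (x : X) :
    Tendsto (fun m => ∑ n ∈ Finset.range (2 * m), bf n x • bv n) atTop (𝓝 x) := by
  have h1 : HasSum ((fun α => gs α x • g α) ∘ bE) x := bE.hasSum_iff.2 (hasSum_g x)
  have h2 := h1.prod_fiberwise (fun j => hasSum_fintype (fun c => ((fun α => gs α x • g α) ∘ bE) (j, c)))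
  have h3 := h2.tendsto_sum_nat
  refine h3.congr fun m => ?_
  induction m with
  | zero => simp
  | succ m ih =>
    have e : 2 * (m + 1) = 2 * m + 1 + 1 := by ring
    rw [e, Finset.sum_range_succ, Finset.sum_range_succ _ (2 * m + 1),
      Finset.sum_range_succ _ (2 * m), ih, add_assoc]
    congr 1
    have a1 : (2 * m) / 2 = m := by omega
    have a2 : (2 * m + 1) / 2 = m := by omega
    have a3 : (2 * m) % 2 = 0 := by omega
    have a4 : (2 * m + 1) % 2 = 1 := by omega
    simp only [bf, bv, a1, a2, a3, a4]
    have := uf_expand (Nat.unpair m).1 (Nat.unpair m).2 x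
    simp only [Fintype.sum_bool, Function.comp_apply, bE, Equiv.coe_fn_mk]
    simp only [zero_ne_one, decide_false, decide_true]
    rw [this, add_comm]

lemma rest_tendsto (x : X) : Tendsto (fun m => bf (2 * m) x • bv (2 * m)) atTop (𝓝 0) := by
  have hc : Tendsto (fun α => gs α x) cofinite (𝓝 0) := by
    rw [Metric.tendsto_nhds]
    intro ε hε
    obtain ⟨E₀, h⟩ := gs_small x hε
    refine (E₀.finite_toSet.subset ?_)
    intro α hα
    by_contra hn
    apply hα
    simp only [Set.mem_setOf_eq, dist_zero_right]
    exact h α (by simpa using hn)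
  have hb : ∀ b : Bool, Tendsto (fun m => gs (bE (m, b)) x) atTop (𝓝 0) := by
    intro b
    rw [← Nat.cofinite_eq_atTop]
    refine hc.comp (Function.Injective.tendsto_cofinite ?_)
    intro m m' h
    have := bE.injective h
    simpa using this
  have h2 : Tendsto (fun m => |gs (bE (m, false)) x| + |gs (bE (m, true)) x|) atTop (𝓝 0) := by
    have := ((tendsto_zero_iff_abs_tendsto_zero _).1 (hb false)).add
      ((tendsto_zero_iff_abs_tendsto_zero _).1 (hb true))
    simpa using this
  refine squeeze_zero_norm (fun m => ?_) h2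
  have a1 : (2 * m) / 2 = m := by omega
  have a3 : (2 * m) % 2 = 0 := by omega
  simp only [bf, bv, a1, a3, zero_ne_one, decide_false]
  rw [norm_smul, ub_norm, mul_one, Real.norm_eq_abs, uf_false]
  set k := (Nat.unpair m).1
  set i := (Nat.unpair m).2
  have e1 : bE (m, false) = (k, false, i) := rfl
  have e2 : bE (m, true) = (k, true, i) := rfl
  rw [e1, e2]
  have t0 := th_pos k
  have t1 := th_le_one k
  have hp : 0 < 1 + th k ^ 2 := by positivity
  have h2 : (1 + th k ^ 2)⁻¹ ≤ 1 := by
    rw [inv_le_one₀ hp]
    have := sq_nonneg (th k)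
    linarith
  rw [abs_mul, abs_of_pos (by positivity : 0 < (1 + th k ^ 2)⁻¹)]
  have h3 : |gs (k, false, i) x + th k * gs (k, true, i) x| ≤
      |gs (k, false, i) x| + |gs (k, true, i) x| := by
    refine (abs_add_le _ _).trans ?_
    rw [abs_mul, abs_of_pos t0]
    have := abs_nonneg (gs (k, true, i) x)
    nlinarith
  have h4 := abs_nonneg (gs (k, false, i) x + th k * gs (k, true, i) x)
  nlinarith

lemma all_tendsto (x : X) :
    Tendsto (fun N => ∑ n ∈ Finset.range N, bf n x • bv n) atTop (𝓝 x) := by
  have hdiv : Tendsto (fun N : ℕ => N / 2) atTop atTop := Nat.tendsto_div_const_atTop (by norm_num)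
  have h1 := (even_tendsto x).comp hdiv
  have h2 : Tendsto (fun N : ℕ => if N % 2 = 1 then
      bf (2 * (N / 2)) x • bv (2 * (N / 2)) else 0) atTop (𝓝 0) := by
    have h3 := ((tendsto_zero_iff_norm_tendsto_zero).1 (rest_tendsto x)).comp hdiv
    refine squeeze_zero_norm (fun N => ?_) h3
    simp only [Function.comp_apply]
    split_ifs
    · exact le_rfl
    · rw [norm_zero]; exact norm_nonneg _
  have h3 := h1.add h2
  rw [add_zero] at h3
  refine h3.congr fun N => ?_
  simp only [Function.comp_apply]
  split_ifs with h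
  · have e : N = 2 * (N / 2) + 1 := by omega
    conv_rhs => rw [e, Finset.sum_range_succ]
  · have e : 2 * (N / 2) = N := by omega
    rw [e, add_zero]

lemma bf_bv (m n : ℕ) : bf m (bv n) = if m = n then 1 else 0 := by
  rw [bf, bv, uf_ub]
  by_cases h : m = n
  · subst h; simp
  · rw [if_neg h, if_neg]
    rintro ⟨h1, h2, h3⟩
    have h4 : Nat.unpair (n / 2) = Nat.unpair (m / 2) := Prod.ext h1 h2
    have h5 : n / 2 = m / 2 := by
      rw [← Nat.pair_unpair (n / 2), h4, Nat.pair_unpair]
    have h6 : (n % 2 = 1) ↔ (m % 2 = 1) := by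
      constructor
      · intro h; have := decide_eq_true h; rw [h3] at this; exact of_decide_eq_true this
      · intro h; have := decide_eq_true h; rw [← h3] at this; exact of_decide_eq_true this
    omega

/-- the Schauder basis -/
noncomputable def bas : SchauderBasis ℝ X where
  basis := bv
  coord := bf
  ortho := fun m n => by
    simp only [Pi.single_apply]
    rw [bf_bv m n]
    split_ifs <;> rfl
  expansion := fun x => by
    rw [HasSum, SummationFilter.conditional_filter_eq_map_range, tendsto_map'_iff]
    exact all_tendsto x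

lemma bas_norm (n : ℕ) : ‖bas n‖ = 1 := ub_norm _ _ _

lemma bas_even (k i : ℕ) (T : X →L[ℝ] X) :
    bas.coord (2 * Nat.pair k i) (T (bas (2 * Nat.pair k i))) = uf k i false (T (ub k i false)) := by
  show bf _ (T (bv _)) = _
  have a1 : (2 * Nat.pair k i) / 2 = Nat.pair k i := by omega
  have a3 : (2 * Nat.pair k i) % 2 = 0 := by omega
  simp only [bf, bv, a1, a3, zero_ne_one, decide_false, Nat.unpair_pair]

lemma bas_odd (k i : ℕ) (T : X →L[ℝ] X) :
    bas.coord (2 * Nat.pair k i + 1) (T (bas (2 * Nat.pair k i + 1))) =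
      uf k i true (T (ub k i true)) := by
  show bf _ (T (bv _)) = _
  have a1 : (2 * Nat.pair k i + 1) / 2 = Nat.pair k i := by omega
  have a3 : (2 * Nat.pair k i + 1) % 2 = 1 := by omega
  simp only [bf, bv, a1, a3, decide_true, Nat.unpair_pair]

end Pool.Agent.Y53.FA
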