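import Pool.Agent.Y53.FA.Fac7

set_option autoImplicit false

namespace Pool.Agent.Y53.FA

open Filter Topology

variable [Par]

/-- the enumeration of the indices -/
def eI : ℕ ≃ Ix where
  toFun := fun n => ((Nat.unpair (n / 2)).1, decide (n % 2 = 1), (Nat.unpair (n / 2)).2)
  invFun := fun α => 2 * Nat.pair α.1 α.2.2 + (if α.2.1 then 1 else 0)
  left_inv := fun n => by
    simp only [Nat.pair_unpair, decide_eq_true_eq]
    split_ifs with h <;> omega
  right_inv := fun α => by
    obtain ⟨k, b, i⟩ := α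
    cases b
    · have a1 : (2 * Nat.pair k i + 0) / 2 = Nat.pair k i := by omega
      have a2 : (2 * Nat.pair k i + 0) % 2 = 0 := by omega
      simp only [Bool.false_eq_true, if_false, a1, a2, Nat.unpair_pair, zero_ne_one, decide_false]
    · have a1 : (2 * Nat.pair k i + 1) / 2 = Nat.pair k i := by omega
      have a2 : (2 * Nat.pair k i + 1) % 2 = 1 := by omega
      simp only [if_true, a1, a2, Nat.unpair_pair, decide_true]

/-- the unconditional basis -/
noncomputable def gas : SchauderBasis ℝ X where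
  basis := fun n => g (eI n)
  coord := fun n => gs (eI n)
  ortho := fun m n => by
    simp only [Pi.single_apply]
    rw [gs_g]
    by_cases h : m = n
    · subst h; simp
    · rw [if_neg (fun h' => h (eI.injective h').symm), if_neg h]
  expansion := fun x => by
    rw [HasSum, SummationFilter.conditional_filter_eq_map_range, tendsto_map'_iff]
    have h1 : HasSum ((fun α => gs α x • g α) ∘ eI) x := eI.hasSum_iff.2 (hasSum_g x)
    exact h1.tendsto_sum_nat

lemma gas_norm (n : ℕ) : ‖gas n‖ = 1 := norm_g _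

lemma gas_apply (n : ℕ) : gas n = g (eI n) := rfl

lemma co_comb (s : Finset ℕ) (a : ℕ → ℝ) (α : Ix) :
    co (∑ n ∈ s, a n • sg (eI n)) α = if eI.symm α ∈ s then a (eI.symm α) else 0 := by
  rw [co_sum]
  have : ∀ n ∈ s, co (a n • sg (eI n)) α = if eI.symm α = n then a n else 0 := by
    intro n _
    rw [co_smul, co_sg, mul_ite, mul_one, mul_zero]
    congr 1
    rw [eq_iff_iff]
    constructor
    · intro h; rw [← h, Equiv.symm_apply_apply]
    · intro h; rw [← h, Equiv.apply_symm_apply]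
  rw [Finset.sum_congr rfl this, Finset.sum_ite_eq]

lemma gas_mono (s : Finset ℕ) (a b : ℕ → ℝ) (h : ∀ n ∈ s, |a n| ≤ |b n|) :
    ‖∑ n ∈ s, a n • gas n‖ ≤ ‖∑ n ∈ s, b n • gas n‖ := by
  have e : ∀ c : ℕ → ℝ, ∑ n ∈ s, c n • gas n = em (∑ n ∈ s, c n • sg (eI n)) := by
    intro c
    rw [map_sum]
    apply Finset.sum_congr rfl
    intro n _
    rw [map_smul]
    rfl
  rw [e, e, em_norm, em_norm]
  apply norm_le_of_tests
  intro t
  refine le_trans ?_ (tvt_le_NN t _)
  apply tv_mono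
  intro i _
  rw [co_comb, co_comb]
  split_ifs with h1
  · exact h _ h1
  · exact le_rfl

lemma Kc_zero : (Kc 0 : ℝ) = 1 := by simp [Kc]

/-- the unit vectors have the uniform factorization property with the best constant -/
lemma gas_fp {δ : ℝ} (hδ : 0 < δ) (T : X →L[ℝ] X) (h : ∀ n, δ ≤ |gas.coord n (T (gas n))|)
    {ε : ℝ} (hε : 0 < ε) :
    ∃ S R : X →L[ℝ] X, S.comp (T.comp R) = ContinuousLinearMap.id ℝ X ∧
      ‖R‖ * ‖S‖ ≤ 1 / δ + ε := by
  have hp : 0 < 1 + δ * ε := by positivity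
  have ht1 : δ * ε / (1 + δ * ε) < 1 := by
    rw [div_lt_one hp]; linarith
  have hd : ∀ α : Ix, δ ≤ |gs α (T (g α))| := by
    intro α
    have := h (eI.symm α)
    have e1 : gas.coord (eI.symm α) = gs α := by
      show gs (eI (eI.symm α)) = gs α
      rw [Equiv.apply_symm_apply]
    rw [e1, gas_apply, Equiv.apply_symm_apply] at this
    exact this
  obtain ⟨S, R, h1, h2⟩ := factor T (δ := δ) (t := δ * ε / (1 + δ * ε)) hδ (by positivity) ht1
    (k0 := 0) (β1 := fun _ b => b) (β2 := fun _ b => b) (fun _ _ _ => rfl) (fun _ _ _ => rfl)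
    (fun k b => Eventually.frequently (Eventually.of_forall fun i => hd (k, b, i)))
  refine ⟨S, R, h1, h2.trans (le_of_eq ?_)⟩
  rw [Kc_zero]
  have h3 : 1 - δ * ε / (1 + δ * ε) = 1 / (1 + δ * ε) := by
    field_simp
    ring
  rw [h3]
  field_simp

lemma bas_two (m : ℕ) :
    bas (2 * m) = gas (2 * m) + th (Nat.unpair m).1 • gas (2 * m + 1) ∧
    bas (2 * m + 1) = gas (2 * m + 1) - th (Nat.unpair m).1 • gas (2 * m) := by
  have a1 : (2 * m) / 2 = m := by omega
  have a2 : (2 * m + 1) / 2 = m := by omega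
  have a3 : (2 * m) % 2 = 0 := by omega
  have a4 : (2 * m + 1) % 2 = 1 := by omega
  have g1 : gas (2 * m) = g ((Nat.unpair m).1, false, (Nat.unpair m).2) := by
    rw [gas_apply]
    congr 1
    show ((Nat.unpair ((2 * m) / 2)).1, decide ((2 * m) % 2 = 1), (Nat.unpair ((2 * m) / 2)).2) = _
    rw [a1, a3]
    rfl
  have g2 : gas (2 * m + 1) = g ((Nat.unpair m).1, true, (Nat.unpair m).2) := by
    rw [gas_apply]
    congr 1
    show ((Nat.unpair ((2 * m + 1) / 2)).1, decide ((2 * m + 1) % 2 = 1),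
      (Nat.unpair ((2 * m + 1) / 2)).2) = _
    rw [a2, a4]
    rfl
  rw [g1, g2]
  constructor
  · show bv (2 * m) = _
    simp only [bv, a1, a3, zero_ne_one, decide_false, ub, Bool.false_eq_true, if_false]
  · show bv (2 * m + 1) = _
    simp only [bv, a2, a4, decide_true, ub, if_true]
    rw [neg_smul, sub_eq_neg_add]

lemma bas_fp {δ : ℝ} (hδ : 0 < δ) (C : ℝ) : ∃ K : ℝ, ∀ T : X →L[ℝ] X, ‖T‖ ≤ C →
    (∀ n, δ ≤ |bas.coord n (T (bas n))|) →
    ∃ S R : X →L[ℝ] X, S.comp (T.comp R) = ContinuousLinearMap.id ℝ X ∧ ‖R‖ * ‖S‖ ≤ K := by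
  obtain ⟨K, hK⟩ := fp hδ C
  refine ⟨K, fun T hT h => hK T hT ?_⟩
  intro k i b
  cases b
  · rw [← bas_even]; exact h _
  · rw [← bas_odd]; exact h _

lemma Tb_diag_bas (k n : ℕ) : 1 ≤ |bas.coord n (Tb k (bas n))| := by
  rcases Nat.even_or_odd' n with ⟨m, rfl | rfl⟩
  · have := bas_even (Nat.unpair m).1 (Nat.unpair m).2 (Tb k)
    rw [Nat.pair_unpair] at this
    rw [this]
    exact Tb_diag _ _ _ _
  · have := bas_odd (Nat.unpair m).1 (Nat.unpair m).2 (Tb k)
    rw [Nat.pair_unpair] at this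
    rw [this]
    exact Tb_diag _ _ _ _

end Pool.Agent.Y53.FA
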